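import Pool.Agent.H25.Rail1
import Pool.Agent.H25.RailDefs

set_option autoImplicit false

namespace Pool.Agent.Results.MP_2ca8f5_lc.PolyAlg
open Pool.Agent.H11.PT Pool.Agent.H25.BN Pool.Agent.H25.SP Pool.Agent.H25.Rail

def cv (x : Q) : R := (⟨bin x.1⟩, ⟨bin x.2⟩)
def out (x : R) : Q := (x.1.v.bits, x.2.v.bits)

theorem val_cv (x : Q) : val (cv x) = qv x := rfl
theorem qv_out (x : R) : qv (out x) = val x := by simp [qv, out, val, bin_bits]

def sc (I : Inst) (y : Q) : R := rmul (rmul (cv I.2.1) (cv y)) (rinv (cv I.1))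
def eJ (I : Inst) (j : Job) : R := sc I j.2.2.2.2
def gJ (I : Inst) (j : Job) : R := sc I j.2.2.2.1
def hiS (j : Job) : R := rsub (cv j.2.1) (cv j.2.2.1)
def los (I : Inst) (j : Job) : List R := cv j.1 :: I.2.2.1.map fun t => radd (cv t) (eJ I j)
def his (I : Inst) (j : Job) : List R :=
  hiS j :: I.2.2.1.map fun t => rsub (radd (cv t) (gJ I j)) (cv j.2.2.1)

def cands (I : Inst) (j : Job) : List R :=
  ((los I j).flatMap fun a => (his I j).map fun b => rhalf (radd a b)).filter
    fun s => rle (cv j.1) s && rle s (hiS j)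

def opt (I : Inst) (j : Job) (s : R) : ℕ × ℕ :=
  (I.2.2.1.countP fun t => !rle s (radd (cv t) (eJ I j)),
    I.2.2.1.countP fun t => rle (radd (cv t) (gJ I j)) (radd s (cv j.2.2.1)))

def opts (I : Inst) (j : Job) : List (ℕ × ℕ) := (cands I j).map (opt I j)

def less (I : Inst) (i j : Job) : Bool :=
  !rle (radd (radd (cv j.2.2.1) (eJ I j)) (gJ I i)) (radd (radd (cv i.2.2.1) (eJ I i)) (gJ I j))

def rank (I : Inst) (j : Job) : ℕ := I.2.2.2.countP fun i => less I i j

def sorted (I : Inst) : List Job :=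
  (List.range I.2.2.2.length).flatMap fun r => I.2.2.2.filter fun j => rank I j == r

def UU (I : Inst) : List ℕ :=
  ent (((sorted I).map (opts I)).foldl (step I.2.2.1.length) []) 0 I.2.2.1.length

def fits (I : Inst) (U : List ℕ) (j : Job) (s : R) : Bool :=
  (List.range I.2.2.1.length).all fun i =>
    !(decide ((opt I j s).1 ≤ i) && decide (i < (opt I j s).2)) || U.contains i

def pick (I : Inst) (U : List ℕ) (j : Job) : R :=
  ((cands I j).find? (fits I U j)).getD (⟨0⟩, ⟨1⟩)

def alg (I : Inst) : List Q := I.2.2.2.map fun j => out (pick I (UU I) j)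

section
variable {α : Type} [Enc α]
@[fun_prop] theorem PT_cv {f : α → Q} (hf : PT f) : PT fun x => cv (f x) := by unfold cv; fun_prop
@[fun_prop] theorem PT_eJ {f : α → Inst} {g : α → Job} (hf : PT f) (hg : PT g) :
    PT fun x => eJ (f x) (g x) := by unfold eJ sc; fun_prop
@[fun_prop] theorem PT_gJ {f : α → Inst} {g : α → Job} (hf : PT f) (hg : PT g) :
    PT fun x => gJ (f x) (g x) := by unfold gJ sc; fun_prop
@[fun_prop] theorem PT_cands {f : α → Inst} {g : α → Job} (hf : PT f) (hg : PT g) :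
    PT fun x => cands (f x) (g x) := by unfold cands los his hiS; fun_prop
@[fun_prop] theorem PT_opt {f : α → Inst} {g : α → Job} {s : α → R} (hf : PT f) (hg : PT g)
    (hs : PT s) : PT fun x => opt (f x) (g x) (s x) := by unfold opt; fun_prop
@[fun_prop] theorem PT_rank {f : α → Inst} {g : α → Job} (hf : PT f) (hg : PT g) :
    PT fun x => rank (f x) (g x) := by unfold rank less; fun_prop
end

theorem PT_UU : PT UU := by
  have h : PT fun I => ((sorted I).map (opts I)).foldl (step I.2.2.1.length) [] :=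
    PT_dp (by fun_prop) (by unfold sorted opts; fun_prop)
  unfold UU H25.Rail.ent; fun_prop

theorem PT_alg : PT alg := by
  have h := PT_UU
  have h2 : PT fun p : (Inst × List ℕ) × Job => pick p.1.1 p.1.2 p.2 := by
    unfold pick fits; fun_prop
  have h3 : PT fun p : Inst × Job => pick p.1 (UU p.1) p.2 :=
    h2.comp (g := fun p : Inst × Job => ((p.1, UU p.1), p.2)) (by fun_prop)
  unfold alg out; fun_prop

theorem lt_countP {β : Type} (v : β → ℝ) (p : β → Bool) (l : List β)
    (hl : l.Pairwise fun a b => v a < v b)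
    (hp : ∀ a ∈ l, ∀ b ∈ l, v a < v b → p b = true → p a = true) :
    ∀ i (h : i < l.length), i < l.countP p ↔ p l[i] = true := by
  induction l with
  | nil => intro i h; simp at h
  | cons a l ih =>
    rw [List.pairwise_cons] at hl
    have ih := ih hl.2 fun x hx y hy => hp x (List.mem_cons_of_mem _ hx) y (List.mem_cons_of_mem _ hy)
    intro i h
    cases ha : p a
    · have h0 : ∀ b ∈ l, ¬ p b = true := fun b hb h => by
        have := hp a (by simp) b (List.mem_cons_of_mem _ hb) (hl.1 b hb) h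
        simp [ha] at this
      rw [List.countP_cons, List.countP_eq_zero.2 h0]
      cases i with
      | zero => simp [ha]
      | succ i => simpa [ha] using h0 _ (List.getElem_mem _)
    · cases i with
      | zero => simp [ha]
      | succ i => simpa [ha] using ih i (by simpa using h)

theorem cP_lt {β : Type} (p q : β → Bool) (l : List β) (h : ∀ x ∈ l, p x = true → q x = true)
    (b : β) (hb : b ∈ l) (h1 : q b = true) (h2 : p b = false) : l.countP p < l.countP q := by
  obtain ⟨s, t, rfl⟩ := List.append_of_mem hb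
  have a1 := List.countP_mono_left (l := s) fun x hx => h x (by simp [hx])
  have a2 := List.countP_mono_left (l := t) fun x hx => h x (by simp [hx])
  simp only [List.countP_append, List.countP_cons, h1, h2]
  simp; omega

noncomputable def tt (I : Inst) (i : ℕ) : ℝ := qv (I.2.2.1.getD i ([], []))
noncomputable def AA (I : Inst) (j : Job) : ℝ := qv j.1 - val (eJ I j)
noncomputable def BB (I : Inst) (j : Job) : ℝ := qv j.2.1 - qv j.2.2.1 - val (eJ I j)
noncomputable def PP (I : Inst) (j : Job) : ℝ := qv j.2.2.1 + val (eJ I j) - val (gJ I j)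

theorem tt_eq (I : Inst) {i : ℕ} (h : i < I.2.2.1.length) : tt I i = qv I.2.2.1[i] := by
  simp [tt, List.getD_eq_getElem?_getD, h]

theorem ok_of_pos {x : Q} (h : 0 < qv x) : ok (cv x) := by
  rcases Nat.eq_zero_or_pos (bin x.2) with e | e
  · simp [qv, e] at h
  · exact e

theorem qv_nonneg (x : Q) : 0 ≤ qv x := val_nonneg (cv x)

section
variable {I : Inst} (hI : Valid I)
include hI

theorem sc_spec {y : Q} (hy : ok (cv y)) :
    ok (sc I y) ∧ val (sc I y) = qv I.2.1 * qv y / qv I.1 := by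
  have a := rmul_spec (ok_of_pos hI.2.1) hy
  have b := rinv_spec (x := cv I.1) hI.1
  have c := rmul_spec a.1 b.1
  exact ⟨c.1, by rw [sc, c.2, a.2, b.2, div_eq_mul_inv]; rfl⟩

variable {j : Job} (hj : j ∈ I.2.2.2)
include hj

theorem e_spec : ok (eJ I j) ∧ val (eJ I j) = qv I.2.1 * qv j.2.2.2.2 / qv I.1 :=
  sc_spec hI (hI.2.2.2.2 j hj).1.2.2.2.2
theorem g_spec : ok (gJ I j) ∧ val (gJ I j) = qv I.2.1 * qv j.2.2.2.1 / qv I.1 :=
  sc_spec hI (hI.2.2.2.2 j hj).1.2.2.2.1

theorem g_le_e : val (gJ I j) ≤ val (eJ I j) := by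
  rw [(e_spec hI hj).2, (g_spec hI hj).2]
  have := (hI.2.2.2.2 j hj).2.2.1
  have := hI.1
  have := hI.2.1
  gcongr

theorem hi_spec : ok (hiS j) ∧ val (hiS j) = qv j.2.1 - qv j.2.2.1 := by
  obtain ⟨⟨_, a, b, _⟩, c, _⟩ := hI.2.2.2.2 j hj
  have := rsub_spec (x := cv j.2.1) (y := cv j.2.2.1) a b
  have h := qv_nonneg j.1
  exact ⟨this.1, this.2 (by simp only [val_cv]; linarith)⟩

theorem meets_iff (t s : ℝ) : Meets (qv I.1) (qv I.2.1) t j s ↔
    s - val (eJ I j) ≤ t ∧ t ≤ s - val (eJ I j) + PP I j := by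
  obtain ⟨_, _, c, d⟩ := hI.2.2.2.2 j hj
  have hL := hI.1
  have hd := hI.2.1
  have hp := qv_nonneg j.2.2.1
  have hs := qv_nonneg j.2.2.2.1
  rw [PP, (e_spec hI hj).2, (g_spec hI hj).2]
  constructor
  · rintro ⟨l, _, _, h3, h4, h5, h6⟩
    have a1 : l * qv I.2.1 ≤ qv I.2.1 * qv j.2.2.2.2 / qv I.1 := by
      rw [le_div_iff₀ hL]; nlinarith
    have a2 : qv I.2.1 * qv j.2.2.2.1 / qv I.1 ≤ l * qv I.2.1 := by
      rw [div_le_iff₀ hL]; nlinarith
    constructor <;> linarith
  · rintro ⟨h1, h2⟩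
    have e1 : ∀ y, qv I.2.1 * y / qv I.1 = y / qv I.1 * qv I.2.1 := fun y => by ring
    rw [e1] at h1 h2
    rw [e1] at h2
    have e2 : ∀ y, y / qv I.1 * qv I.1 = y := fun y => by field_simp
    have e3 : (s - t) / qv I.2.1 * qv I.2.1 = s - t := by field_simp
    have a1 : (s - t) / qv I.2.1 ≤ qv j.2.2.2.2 / qv I.1 := by rw [div_le_iff₀ hd]; linarith
    have a2 : qv j.2.2.2.2 / qv I.1 ≤ 1 := by rw [div_le_one hL]; exact d
    have a3 : qv j.2.2.2.1 / qv I.1 ≤ qv j.2.2.2.2 / qv I.1 := by gcongr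
    have a4 : 0 ≤ qv j.2.2.2.1 / qv I.1 := by positivity
    rcases le_total (qv j.2.2.2.1 / qv I.1) ((s - t) / qv I.2.1) with h | h
    · refine ⟨(s - t) / qv I.2.1, by linarith, by linarith, by linarith, by linarith, ?_, ?_⟩
      · rw [← e2 (qv j.2.2.2.1)]; gcongr
      · rw [← e2 (qv j.2.2.2.2)]; gcongr
    · refine ⟨qv j.2.2.2.1 / qv I.1, a4, by linarith, ?_, by linarith, by rw [e2], by rw [e2]; exact c⟩
      have : (s - t) / qv I.2.1 * qv I.2.1 ≤ qv j.2.2.2.1 / qv I.1 * qv I.2.1 := by gcongr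
      linarith

theorem los_spec {a : R} (ha : a ∈ los I j) : ok a := by
  rcases List.mem_cons.1 ha with rfl | ha
  · exact (hI.2.2.2.2 j hj).1.1
  · obtain ⟨t, ht, rfl⟩ := List.mem_map.1 ha
    exact (radd_spec (x := cv t) (hI.2.2.1 t ht) (e_spec hI hj).1).1

theorem his_spec {a : R} (ha : a ∈ his I j) : ok a := by
  rcases List.mem_cons.1 ha with rfl | ha
  · exact (hi_spec hI hj).1
  · obtain ⟨t, ht, rfl⟩ := List.mem_map.1 ha
    exact (rsub_spec (y := cv j.2.2.1) (radd_spec (x := cv t) (hI.2.2.1 t ht) (g_spec hI hj).1).1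
      (hI.2.2.2.2 j hj).1.2.2.1).1

theorem cand_spec {s : R} (hs : s ∈ cands I j) :
    ok s ∧ qv j.1 ≤ val s ∧ val s ≤ qv j.2.1 - qv j.2.2.1 := by
  simp only [cands, List.mem_filter, List.mem_flatMap, List.mem_map, Bool.and_eq_true] at hs
  obtain ⟨⟨a, ha, b, hb, e⟩, h1, h2⟩ := hs
  have h : ok s := e ▸ (rhalf_spec (radd_spec (los_spec hI hj ha) (his_spec hI hj hb)).1).1
  rw [rle_spec (x := cv j.1) (hI.2.2.2.2 j hj).1.1 h] at h1
  rw [rle_spec h (hi_spec hI hj).1, (hi_spec hI hj).2] at h2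
  exact ⟨h, h1, h2⟩

theorem opt_spec {s : R} (hs : ok s) :
    LH I.2.2.1.length (tt I) (val s - val (eJ I j)) (PP I j) (opt I j s) := by
  have k1 : ∀ t ∈ I.2.2.1, (!rle s (radd (cv t) (eJ I j))) = true ↔ qv t < val s - val (eJ I j) := by
    intro t ht
    have a := radd_spec (x := cv t) (hI.2.2.1 t ht) (e_spec hI hj).1
    rw [Bool.not_eq_true', ← Bool.not_eq_true, rle_spec hs a.1, a.2, val_cv, not_le]
    constructor <;> intro h <;> linarith
  have k2 : ∀ t ∈ I.2.2.1, rle (radd (cv t) (gJ I j)) (radd s (cv j.2.2.1)) = true ↔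
      qv t ≤ val s - val (eJ I j) + PP I j := by
    intro t ht
    have a := radd_spec (x := cv t) (hI.2.2.1 t ht) (g_spec hI hj).1
    have b := radd_spec (y := cv j.2.2.1) hs (hI.2.2.2.2 j hj).1.2.2.1
    rw [rle_spec a.1 b.1, a.2, b.2, val_cv, val_cv, PP]
    constructor <;> intro h <;> linarith
  refine ⟨List.countP_le_length, List.countP_le_length, fun i hi => ?_, fun i hi => ?_⟩
  · rw [tt_eq I hi, ← k1 _ (List.getElem_mem _)]
    exact lt_countP qv _ _ hI.2.2.2.1 (fun a ha b hb h h' => (k1 a ha).2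
      (h.trans ((k1 b hb).1 h'))) i hi
  · rw [tt_eq I hi, ← k2 _ (List.getElem_mem _)]
    exact lt_countP qv _ _ hI.2.2.2.1 (fun a ha b hb h h' => (k2 a ha).2
      (h.le.trans ((k2 b hb).1 h'))) i hi

theorem cand_ex (x : ℝ) (h1 : qv j.1 ≤ x) (h2 : x ≤ qv j.2.1 - qv j.2.2.1) :
    ∃ s ∈ cands I j, ∀ t ∈ I.2.2.1, val s - val (eJ I j) ≤ qv t →
      qv t ≤ val s - val (eJ I j) + PP I j →
        x - val (eJ I j) ≤ qv t ∧ qv t ≤ x - val (eJ I j) + PP I j := by
  classical
  obtain ⟨a, ha, ha'⟩ := Set.exists_max_image {a | a ∈ los I j ∧ val a ≤ x} val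
    ((List.finite_toSet _).subset fun a h => h.1) ⟨cv j.1, by simp [los], h1⟩
  obtain ⟨b, hb, hb'⟩ := Set.exists_min_image {a | a ∈ his I j ∧ x ≤ val a} val
    ((List.finite_toSet _).subset fun a h => h.1) ⟨hiS j, by simp [his], by
      rw [(hi_spec hI hj).2]; exact h2⟩
  have c1 := radd_spec (los_spec hI hj ha.1) (his_spec hI hj hb.1)
  have c2 := rhalf_spec c1.1
  have c3 : val (rhalf (radd a b)) = (val a + val b) / 2 := by rw [c2.2, c1.2]
  have d1 := ha' (cv j.1) ⟨by simp [los], h1⟩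
  have d2 := hb' (hiS j) ⟨by simp [his], by rw [(hi_spec hI hj).2]; exact h2⟩
  have d3 := ha.2
  have d4 := hb.2
  refine ⟨rhalf (radd a b), ?_, fun t ht g1 g2 => ?_⟩
  · simp only [cands, List.mem_filter, List.mem_flatMap, List.mem_map, Bool.and_eq_true]
    refine ⟨⟨a, ha.1, b, hb.1, rfl⟩, ?_, ?_⟩
    · rw [rle_spec (x := cv j.1) (hI.2.2.2.2 j hj).1.1 c2.1, c3]; linarith
    · rw [rle_spec c2.1 (hi_spec hI hj).1, c3]; linarith
  · rw [c3] at g1 g2
    have u := radd_spec (x := cv t) (hI.2.2.1 t ht) (e_spec hI hj).1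
    have v := radd_spec (x := cv t) (hI.2.2.1 t ht) (g_spec hI hj).1
    have w := rsub_spec (y := cv j.2.2.1) v.1 (hI.2.2.2.2 j hj).1.2.2.1
    rw [val_cv] at u v w
    have hr := qv_nonneg j.1
    unfold PP at g2 ⊢
    constructor
    · by_contra hc
      have := ha' (radd (cv t) (eJ I j)) ⟨List.mem_cons_of_mem _ (List.mem_map.2 ⟨t, ht, rfl⟩),
        by rw [u.2]; linarith⟩
      rw [u.2] at this
      linarith
    · by_contra hc
      have w2 := w.2 (by rw [v.2]; linarith)
      have := hb' (rsub (radd (cv t) (gJ I j)) (cv j.2.2.1)) ⟨List.mem_cons_of_mem _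
        (List.mem_map.2 ⟨t, ht, rfl⟩), by rw [w2, v.2]; linarith⟩
      rw [w2, v.2] at this
      linarith

theorem cand_ex' (x : ℝ) (h1 : AA I j ≤ x) (h2 : x ≤ BB I j) :
    ∃ s ∈ cands I j, ∀ i < I.2.2.1.length, (opt I j s).1 ≤ i → i < (opt I j s).2 →
      x ≤ tt I i ∧ tt I i ≤ x + PP I j := by
  obtain ⟨s, hs, h⟩ := cand_ex hI hj (x + val (eJ I j)) (by unfold AA at h1; linarith)
    (by unfold BB at h2; linarith)
  refine ⟨s, hs, fun i hi a b => ?_⟩
  obtain ⟨_, _, l3, l4⟩ := opt_spec hI hj (cand_spec hI hj hs).1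
  have a1 := (l4 i hi).1 b
  have a2 : ¬ tt I i < val s - val (eJ I j) := fun h => absurd ((l3 i hi).2 h) (by omega)
  rw [tt_eq I hi] at a1 a2 ⊢
  have := h _ (List.getElem_mem hi) (not_lt.1 a2) a1
  constructor <;> linarith [this.1, this.2]

theorem spec : Spec I.2.2.1.length (tt I) (AA I) (BB I) (PP I) j (opts I j) := by
  have h0 := (hI.2.2.2.2 j hj).2.1
  have h1 := g_le_e hI hj
  have h2 := qv_nonneg j.2.2.1
  refine ⟨by unfold AA BB; linarith, by unfold PP; linarith, fun o ho => ?_, fun x a b => ?_⟩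
  · obtain ⟨s, hs, rfl⟩ := List.mem_map.1 ho
    obtain ⟨a, b, c⟩ := cand_spec hI hj hs
    exact ⟨_, by unfold AA; linarith, by unfold BB; linarith, opt_spec hI hj a⟩
  · obtain ⟨s, hs, h⟩ := cand_ex' hI hj x a b
    exact ⟨_, List.mem_map_of_mem hs, h⟩

theorem less_iff {i : Job} (hi : i ∈ I.2.2.2) : less I i j = true ↔ PP I i < PP I j := by
  have a := radd_spec (x := cv j.2.2.1) (hI.2.2.2.2 j hj).1.2.2.1 (e_spec hI hj).1
  have b := radd_spec (x := cv i.2.2.1) (hI.2.2.2.2 i hi).1.2.2.1 (e_spec hI hi).1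
  have c := radd_spec a.1 (g_spec hI hi).1
  have d := radd_spec b.1 (g_spec hI hj).1
  rw [less, Bool.not_eq_true', ← Bool.not_eq_true, rle_spec c.1 d.1, c.2, d.2, a.2, b.2, val_cv,
    val_cv, not_le, PP, PP]
  constructor <;> intro h <;> linarith

theorem rank_le {i : Job} (hi : i ∈ I.2.2.2) (h : rank I i ≤ rank I j) : PP I i ≤ PP I j := by
  by_contra hc
  have hc := not_le.1 hc
  have := cP_lt (fun x => less I x j) (fun x => less I x i) I.2.2.2 (fun x hx h =>
    (less_iff hI hi hx).2 (((less_iff hI hj hx).1 h).trans hc)) j hj ((less_iff hI hi hj).2 hc)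
    (by rw [← Bool.not_eq_true, less_iff hI hj hj]; simp)
  unfold rank at h; omega

theorem mem_sorted : j ∈ sorted I := by
  have := cP_lt (fun x => less I x j) (fun _ => true) I.2.2.2 (by simp) j hj rfl
    (by rw [← Bool.not_eq_true, less_iff hI hj hj]; simp)
  simp only [sorted, List.mem_flatMap, List.mem_range, List.mem_filter, beq_iff_eq]
  exact ⟨_, by simpa [rank] using this, hj, rfl⟩

omit hj in
theorem UU_opt : Opt I.2.2.1.length (tt I) (AA I) (BB I) (PP I) (sorted I) 0 I.2.2.1.length (UU I) := by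
  have hm : ∀ j ∈ sorted I, j ∈ I.2.2.2 := fun j h => by
    simp only [sorted, List.mem_flatMap, List.mem_filter] at h
    obtain ⟨_, _, h, _⟩ := h
    exact h
  refine fold_opt _ _ _ _ _ _ _ (fun j h => spec hI (hm j h)) ?_ _ (Nat.zero_le _) _ le_rfl
  rw [sorted, List.pairwise_flatMap]
  refine ⟨fun r _ => List.pairwise_of_forall_mem_list fun a ha b hb => ?_,
    List.pairwise_lt_range.imp fun {r r'} h a ha b hb => ?_⟩
  all_goals
    simp only [List.mem_filter, beq_iff_eq] at ha hb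
    exact rank_le hI hb.1 ha.1 (by omega)

theorem pick_spec : pick I (UU I) j ∈ cands I j ∧ fits I (UU I) j (pick I (UU I) j) = true := by
  obtain ⟨x, h1, h2, h3⟩ := (UU_opt hI).1 j (mem_sorted hI hj)
  obtain ⟨s, hs, h⟩ := cand_ex' hI hj x h1 h2
  cases e : (cands I j).find? (fits I (UU I) j) with
  | none =>
    refine absurd ?_ (List.find?_eq_none.1 e s hs)
    simp only [fits, List.all_eq_true, List.mem_range, Bool.or_eq_true, Bool.not_eq_true',
      List.contains_iff_mem, Bool.and_eq_false_iff, decide_eq_false_iff_not]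
    intro i hi
    by_cases c : (opt I j s).1 ≤ i ∧ i < (opt I j s).2
    · exact Or.inr (h3 i hi (Nat.zero_le _) hi (h i hi c.1 c.2).1 (h i hi c.1 c.2).2)
    · exact Or.inl (not_and_or.1 c)
  | some w =>
    simp only [pick, e, Option.getD_some]
    exact ⟨List.mem_of_find?_eq_some e, List.find?_some e⟩

end

theorem card_eq_countP (m : ℕ) (p : Fin m → Prop) (V : ℕ → Bool)
    (h : ∀ i : Fin m, p i ↔ V i = true) : Nat.card {i // p i} = (List.range m).countP V := by
  rw [List.countP_eq_length_filter, ← List.toFinset_card_of_nodup (List.nodup_range.filter _),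
    ← Nat.card_eq_finsetCard]
  refine Nat.card_congr (Equiv.ofBijective (fun i => ⟨i.1.1, by simpa using (h _).1 i.2⟩)
    ⟨fun a b e => Subtype.ext (Fin.ext (congrArg Subtype.val e)), fun ⟨i, hi⟩ => ?_⟩)
  simp only [List.mem_toFinset, List.mem_filter, List.mem_range] at hi
  exact ⟨⟨⟨i, hi.1⟩, (h _).2 hi.2⟩, rfl⟩

/-- A polynomial-time algorithm finds a schedule with the fewest cancelled paths. -/
theorem result : ∃ f : Inst → List Q, PolyTime bits bits f ∧ ∀ I, Valid I →
    (f I).length = I.2.2.2.length ∧ (∀ x ∈ f I, 0 < bin x.2) ∧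
    Feasible I (fun j => qv ((f I).getD j ([], []))) ∧
    ∀ s, Feasible I s → cancelled I (fun j => qv ((f I).getD j ([], []))) ≤ cancelled I s := by
  classical
  refine ⟨alg, PT_alg.polyTime, fun I hI => ⟨by simp [alg], fun x hx => ?_, ?_⟩⟩
  · obtain ⟨j, hj, rfl⟩ := List.mem_map.1 hx
    have := (cand_spec hI hj (pick_spec hI hj).1).1
    simpa [out, bin_bits, ok] using this
  have e : ∀ j : Fin I.2.2.2.length, qv ((alg I).getD j ([], [])) = val (pick I (UU I) I.2.2.2[j]) :=
    fun j => by simp [alg, List.getD_eq_getElem?_getD, qv_out]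
  simp only [e]
  refine ⟨fun j => (cand_spec hI (List.getElem_mem _) (pick_spec hI (List.getElem_mem _)).1).2,
    fun s hs => ?_⟩
  have h1 : cancelled I (fun j => val (pick I (UU I) I.2.2.2[j])) ≤ (UU I).length := by
    refine le_trans ?_ (cnt_contains I.2.2.1.length (UU I))
    rw [← card_eq_countP _ (fun i => (UU I).contains i.1 = true) _ fun _ => Iff.rfl]
    refine Nat.card_le_card_of_injective (fun i => ⟨i.1, ?_⟩)
      fun a b h => Subtype.ext (by simpa using h)
    obtain ⟨i, j, hm⟩ := i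
    have hj := List.getElem_mem j.2
    obtain ⟨p1, p2⟩ := pick_spec hI hj
    obtain ⟨_, _, l3, l4⟩ := opt_spec hI hj (cand_spec hI hj p1).1
    have := (meets_iff hI hj _ _).1 hm
    simp only [fits, List.all_eq_true, List.mem_range, Bool.or_eq_true, Bool.not_eq_true',
      Bool.and_eq_false_iff, decide_eq_false_iff_not] at p2
    have a1 := (l4 i i.2).2 (by rw [tt_eq I i.2]; exact this.2)
    have a2 : ¬ i.1 < (opt I I.2.2.2[j.1] (pick I (UU I) I.2.2.2[j.1])).1 := fun h =>
      absurd ((l3 i i.2).1 h) (by rw [tt_eq I i.2]; exact not_lt.2 this.1)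
    exact (p2 i i.2).resolve_left (by omega)
  let V : ℕ → Bool := fun i =>
    decide (∃ j : Fin I.2.2.2.length, Meets (qv I.1) (qv I.2.1) (tt I i) I.2.2.2[j] (s j))
  have h2 := (UU_opt hI).2 V fun j hj => by
    simp only [sorted, List.mem_flatMap, List.mem_filter] at hj
    obtain ⟨_, _, hj, _⟩ := hj
    obtain ⟨k, hk, rfl⟩ := List.getElem_of_mem hj
    have := hs ⟨k, hk⟩
    refine ⟨s ⟨k, hk⟩ - val (eJ I I.2.2.2[k]), sub_le_sub_right this.1 _,
      sub_le_sub_right this.2 _, fun i _ _ _ a b => ?_⟩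
    exact decide_eq_true ⟨⟨k, hk⟩, (meets_iff hI hj _ _).2 ⟨a, b⟩⟩
  have h3 : cancelled I s = (List.range I.2.2.1.length).countP V :=
    card_eq_countP _ _ _ fun i => by simp [V, tt_eq I i.2]
  have h4 : cnt I.2.2.1.length 0 I.2.2.1.length V ≤ (List.range I.2.2.1.length).countP V :=
    List.countP_mono_left fun x _ h => by simp only [Bool.and_eq_true] at h; exact h.2
  omega

end Pool.Agent.Results.MP_2ca8f5_lc.PolyAlg
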